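import Pool.Agent.H529R2.PT.P5

/-!
# Quantum proofs for both answers do not help on promises which meet all small subcubes

`f` is a Boolean function on `{0,1}^n` which is defined only on a part of the inputs
(`f x = none` means that `f` is not defined on `x`).  Suppose that every subcube of dimension
`k + 1` contains an input on which `f` is defined.  Suppose that there are two quantum verifiers with
`T` queries, one (`b = true`) which verifies that `f x = 1`, and one (`b = false`) which verifies
that `f x = 0`, each with the help of a quantum proof of arbitrary length, with error `1/3`.  Then a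
deterministic decision tree of depth `(12 T ^ 2 + 1) ^ 4 (k + 2) ^ 2` computes `f`.

The verifier `b` starts with a unit vector of the set `start b` (for instance: all vectors
`ψ ⊗ |0⟩`).  In the `t`-th step it makes a phase query (the basis state `c` is multiplied by
`(-1)^{x_i}` if `pos b c = some i`, and by `1` if `pos b c = none`) and then applies the unitary matrix
`U b t`.  The state after `t` steps on the input `x`, with the start vector `v`, is `A b v t x`,
and the verifier accepts if the measurement after `T` steps gives a basis state of `acc b`.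
-/

set_option autoImplicit false

namespace Pool.Agent.Results.MP_36f78e_lc.BothSidesPromises

open Finset Pool.Agent.H529R2.PT

theorem result {n : ℕ} (k : ℕ)
    -- the function, defined on part of the cube
    (f : (Fin n → Bool) → Option Bool)
    -- it is defined somewhere on every subcube of dimension `k + 1`
    (hf : ∀ (W : Finset (Fin n)) (y : Fin n → Bool), W.card = k + 1 →
      ∃ x : Fin n → Bool, (∀ i, i ∉ W → x i = y i) ∧ f x ≠ none)
    -- the two verifiers
    {B : Type} [Fintype B] [DecidableEq B] (T : ℕ) (pos : Bool → B → Option (Fin n))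
    (U : Bool → ℕ → Matrix B B ℂ) (hU : ∀ b t, U b t ∈ Matrix.unitaryGroup B ℂ)
    (start : Bool → Set (B → ℂ)) (hstart : ∀ b, ∀ v ∈ start b, ∑ c, ‖v c‖ ^ 2 = 1)
    (A : Bool → (B → ℂ) → ℕ → (Fin n → Bool) → B → ℂ) (hA0 : ∀ b v x, A b v 0 x = v)
    (hA : ∀ b v t x, A b v (t + 1) x = (U b t).mulVec (fun c =>
      (Option.elim (pos b c) 1 (fun i => if x i = true then -1 else 1)) * A b v t x c))
    (acc : Bool → Finset B)
    -- completeness
    (h1 : ∀ x b, f x = some b → ∃ v ∈ start b, 2 / 3 ≤ ∑ c ∈ acc b, ‖A b v T x c‖ ^ 2)
    -- soundness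
    (h0 : ∀ x b, f x = some (!b) → ∀ v ∈ start b, ∑ c ∈ acc b, ‖A b v T x c‖ ^ 2 ≤ 1 / 3) :
    ∃ t : DTree (Fin n), t.depth ≤ (12 * T ^ 2 + 1) ^ 4 * (k + 2) ^ 2 ∧
      ∀ x b, f x = some b → t.eval x = b := by
  have hA' : ∀ b v t x, A b v (t + 1) x =
      (U b t).mulVec (fun c => ((phase (pos b c) x : ℝ) : ℂ) * A b v t x c) := by
    intro b v t x
    rw [hA]
    congr 1
    funext c
    congr 1
    unfold phase
    cases pos b c with
    | none => simp
    | some i =>
      simp only [Option.elim_some]
      split_ifs <;> simp
  have hBS := BS_of_polys f (2 * T) (by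
    intro x b hx
    obtain ⟨v, hv, hacc⟩ := h1 x b hx
    have hn := norm_amp (pos b) (U b) (hU b) v (hstart b v hv) (A b v) (hA0 b v) (hA' b v)
    refine ⟨fun y => ∑ c ∈ acc b, ‖A b v T y c‖ ^ 2,
      prob_mem (pos b) (U b) v (A b v) (hA0 b v) (hA' b v) T (acc b),
      fun y => ⟨Finset.sum_nonneg fun c _ => by positivity, by
        rw [← hn T y]
        exact Finset.sum_le_sum_of_subset_of_nonneg (Finset.subset_univ _)
          (fun c _ _ => by positivity)⟩, hacc, fun y hy => h0 y b hy v hv⟩)
  have e : 3 * (2 * T) ^ 2 = 12 * T ^ 2 := by ring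
  rw [e] at hBS
  exact tree_of_BS f k (12 * T ^ 2) hf hBS

end Pool.Agent.Results.MP_36f78e_lc.BothSidesPromises
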