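import Pool.Agent.H301R2.Sub3

set_option autoImplicit false

/-!
# The exact guaranteed overlap with a subset state

Every `n`-qubit state `ψ` has overlap at least `1 / √(n log 2 + 5)` with some subset state
`|S⟩ = |S|^{-1/2} ∑_{i ∈ S} |i⟩`, and for every `n ≥ 2` there is an `n`-qubit state whose overlap
with every subset state is at most `1 / √(n log 2 - 1)`. Hence the overlap that can be guaranteed
for all `n`-qubit states is `(1 + o(1)) / √(n log 2)`; the known lower bound was `1 / (8 √(n + 3))`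
(Grilo, Kerenidis, Sikora), with an upper bound of the same order with another constant.

Proof (helper301). Lower bound: if all overlaps are at most `c`, then the positive and negative
parts of the real and imaginary parts of `ψ` are four nonnegative vectors with subset sums at most
`c √|S|`; sorting and Abel summation give `∑ b_i ^ 2 ≤ c ^ 2 ∑ (√k - √(k-1)) ^ 2` for each of
them, and the sum of the four left sides is `1`. Upper bound: `ψ_k = c i^k / √(k + 2)`; in each
residue class modulo `4` the subset sums are at most `c √|S|`, and the four classes are combined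
by Pythagoras.
-/

namespace Pool.Agent.Results.MP_36f78e_lc.SubsetStates

open Finset Pool.Agent.H301R2.Sub

/-- The subset state `|S⟩ = |S|^{-1/2} ∑_{i ∈ S} |i⟩` of `n` qubits. -/
noncomputable def subsetState {n : ℕ} (S : Finset (Fin (2 ^ n))) :
    EuclideanSpace ℂ (Fin (2 ^ n)) :=
  WithLp.toLp 2 (fun i => if i ∈ S then (((Real.sqrt S.card)⁻¹ : ℝ) : ℂ) else 0)

/-- The largest overlap `|⟨S|ψ⟩|` of `ψ` with a subset state. -/
noncomputable def bestOverlap {n : ℕ} (ψ : EuclideanSpace ℂ (Fin (2 ^ n))) : ℝ :=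
  ⨆ S : {S : Finset (Fin (2 ^ n)) // S.Nonempty}, ‖inner ℂ (subsetState S.1) ψ‖

/-- The overlap with a subset state that is guaranteed for all `n`-qubit states. -/
noncomputable def guaranteedOverlap (n : ℕ) : ℝ :=
  ⨅ ψ : {ψ : EuclideanSpace ℂ (Fin (2 ^ n)) // ‖ψ‖ = 1}, bestOverlap ψ.1

theorem inner_subset {n : ℕ} (S : Finset (Fin (2 ^ n))) (ψ : EuclideanSpace ℂ (Fin (2 ^ n))) :
    ‖inner ℂ (subsetState S) ψ‖ ^ 2 = ‖∑ i ∈ S, ψ i‖ ^ 2 / S.card := by
  have h1 : inner ℂ (subsetState S) ψ = (((Real.sqrt S.card)⁻¹ : ℝ) : ℂ) * ∑ i ∈ S, ψ i := by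
    rw [PiLp.inner_apply, Finset.mul_sum, ← Finset.sum_filter_add_sum_filter_not univ (fun i => i ∈ S)]
    have e1 : ∑ i ∈ univ.filter (fun i => i ∈ S), inner ℂ ((subsetState S).ofLp i) (ψ.ofLp i) =
        ∑ i ∈ S, (((Real.sqrt S.card)⁻¹ : ℝ) : ℂ) * ψ i := by
      rw [Finset.filter_mem_eq_inter, Finset.univ_inter]
      apply Finset.sum_congr rfl
      intro i hi
      simp only [subsetState, if_pos hi]
      rw [RCLike.inner_apply, Complex.conj_ofReal, mul_comm]
    have e2 : ∑ i ∈ univ.filter (fun i => ¬ i ∈ S),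
        inner ℂ ((subsetState S).ofLp i) (ψ.ofLp i) = 0 := by
      apply Finset.sum_eq_zero
      intro i hi
      have hi' := (Finset.mem_filter.1 hi).2
      simp only [subsetState, if_neg hi']
      rw [inner_zero_left]
    rw [e1, e2, add_zero]
  rw [h1, norm_mul, mul_pow, Complex.norm_real, Real.norm_eq_abs, sq_abs, inv_pow,
    Real.sq_sqrt (by positivity)]
  rw [div_eq_inv_mul]

theorem norm_sq_eq {n : ℕ} (ψ : EuclideanSpace ℂ (Fin (2 ^ n))) :
    ‖ψ‖ ^ 2 = ∑ i, ‖ψ i‖ ^ 2 := EuclideanSpace.norm_sq_eq ψ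

theorem le_best {n : ℕ} (ψ : EuclideanSpace ℂ (Fin (2 ^ n))) (S : Finset (Fin (2 ^ n)))
    (hS : S.Nonempty) : ‖inner ℂ (subsetState S) ψ‖ ≤ bestOverlap ψ :=
  le_ciSup (f := fun S : {S : Finset (Fin (2 ^ n)) // S.Nonempty} =>
    ‖inner ℂ (subsetState S.1) ψ‖) (Set.finite_range _).bddAbove ⟨S, hS⟩

theorem best_nonneg {n : ℕ} (ψ : EuclideanSpace ℂ (Fin (2 ^ n))) : 0 ≤ bestOverlap ψ :=
  (norm_nonneg _).trans (le_best ψ {⟨0, by positivity⟩} (Finset.singleton_nonempty _))

theorem log_pow (n : ℕ) : Real.log ((2 ^ n : ℕ) : ℝ) = n * Real.log 2 := by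
  push_cast
  rw [Real.log_pow]

theorem lower (n : ℕ) (ψ : EuclideanSpace ℂ (Fin (2 ^ n))) (hψ : ‖ψ‖ = 1) :
    1 / Real.sqrt (n * Real.log 2 + 5) ≤ bestOverlap ψ := by
  obtain ⟨S, hS, h⟩ := exists_subset (d := 2 ^ n) Nat.one_le_two_pow (fun i => ψ i) (by
    rw [← norm_sq_eq, hψ, one_pow])
  refine le_trans ?_ (le_best ψ S hS)
  rw [log_pow, ← inner_subset S ψ] at h
  have h0 : 0 ≤ (n : ℝ) * Real.log 2 := mul_nonneg (by positivity) (Real.log_nonneg (by norm_num))
  have h1 : (1 / Real.sqrt (n * Real.log 2 + 5)) ^ 2 = 1 / (n * Real.log 2 + 5) := by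
    rw [div_pow, Real.sq_sqrt (by linarith), one_pow]
  rw [← h1] at h
  exact (pow_le_pow_iff_left₀ (by positivity) (norm_nonneg _) two_ne_zero).1 h

theorem log_bound (n : ℕ) (hn : 2 ≤ n) : 0 < (n : ℝ) * Real.log 2 - 1 := by
  have h1 := Real.log_two_gt_d9
  have h2 : (2 : ℝ) ≤ n := by exact_mod_cast hn
  nlinarith

theorem upper (n : ℕ) (hn : 2 ≤ n) : ∃ ψ : EuclideanSpace ℂ (Fin (2 ^ n)), ‖ψ‖ = 1 ∧
    bestOverlap ψ ≤ 1 / Real.sqrt (n * Real.log 2 - 1) := by
  have hd : 3 ≤ 2 ^ n := by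
    have : 2 ^ 2 ≤ 2 ^ n := Nat.pow_le_pow_right (by norm_num) hn
    omega
  obtain ⟨ψ, h1, h2⟩ := exists_vector hd
  have hpos := log_bound n hn
  refine ⟨WithLp.toLp 2 ψ, ?_, ?_⟩
  · have : ‖(WithLp.toLp 2 ψ : EuclideanSpace ℂ (Fin (2 ^ n)))‖ ^ 2 = 1 := by
      rw [norm_sq_eq]; exact h1
    exact (pow_eq_one_iff_of_nonneg (norm_nonneg _) two_ne_zero).1 this
  · have : Nonempty {S : Finset (Fin (2 ^ n)) // S.Nonempty} :=
      ⟨⟨{⟨0, by positivity⟩}, Finset.singleton_nonempty _⟩⟩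
    apply ciSup_le
    rintro ⟨S, hS⟩
    have h3 : ‖inner ℂ (subsetState S) (WithLp.toLp 2 ψ : EuclideanSpace ℂ (Fin (2 ^ n)))‖ ^ 2 ≤
        (1 / Real.sqrt (n * Real.log 2 - 1)) ^ 2 := by
      rw [inner_subset, div_pow, Real.sq_sqrt hpos.le, one_pow]
      have hc : (0 : ℝ) < S.card := by exact_mod_cast hS.card_pos
      rw [div_le_iff₀ hc]
      have := h2 S
      rw [log_pow] at this
      exact this
    exact (pow_le_pow_iff_left₀ (norm_nonneg _) (by positivity) two_ne_zero).1 h3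

/-- **The overlap with a subset state guaranteed for all `n`-qubit states is
`(1 + o(1)) / √(n log 2)`**, with explicit bounds. -/
theorem result :
    (∀ n : ℕ, 1 / Real.sqrt (n * Real.log 2 + 5) ≤ guaranteedOverlap n) ∧
    (∀ n : ℕ, 2 ≤ n → guaranteedOverlap n ≤ 1 / Real.sqrt (n * Real.log 2 - 1)) ∧
    Filter.Tendsto (fun n : ℕ => guaranteedOverlap n * Real.sqrt (n * Real.log 2))
      Filter.atTop (nhds 1) := by
  have hbdd : ∀ n : ℕ, BddBelow (Set.range
      (fun ψ : {ψ : EuclideanSpace ℂ (Fin (2 ^ n)) // ‖ψ‖ = 1} => bestOverlap ψ.1)) := by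
    intro n
    refine ⟨0, ?_⟩
    rintro _ ⟨ψ, rfl⟩
    exact best_nonneg ψ.1
  have hne : ∀ n : ℕ, Nonempty {ψ : EuclideanSpace ℂ (Fin (2 ^ n)) // ‖ψ‖ = 1} := by
    intro n
    refine ⟨⟨EuclideanSpace.single ⟨0, by positivity⟩ (1 : ℂ), ?_⟩⟩
    rw [EuclideanSpace.norm_single, norm_one]
  have hlow : ∀ n : ℕ, 1 / Real.sqrt (n * Real.log 2 + 5) ≤ guaranteedOverlap n := by
    intro n
    have := hne n
    apply le_ciInf
    rintro ⟨ψ, hψ⟩
    exact lower n ψ hψ
  have hup : ∀ n : ℕ, 2 ≤ n → guaranteedOverlap n ≤ 1 / Real.sqrt (n * Real.log 2 - 1) := by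
    intro n hn
    obtain ⟨ψ, h1, h2⟩ := upper n hn
    exact (ciInf_le (hbdd n) ⟨ψ, h1⟩).trans h2
  refine ⟨hlow, hup, ?_⟩
  have hl2 : 0 < Real.log 2 := Real.log_pos (by norm_num)
  have hx : Filter.Tendsto (fun n : ℕ => (n : ℝ) * Real.log 2) Filter.atTop Filter.atTop :=
    (tendsto_natCast_atTop_atTop).atTop_mul_const hl2
  have hg : Filter.Tendsto (fun x : ℝ => Real.sqrt (x / (x + 5))) Filter.atTop (nhds 1) := by
    have h1 : Filter.Tendsto (fun x : ℝ => x / (x + 5)) Filter.atTop (nhds 1) := by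
      have h2 : Filter.Tendsto (fun x : ℝ => 1 - 5 / (x + 5)) Filter.atTop (nhds (1 - 0)) := by
        apply Filter.Tendsto.sub tendsto_const_nhds
        exact (Filter.tendsto_atTop_add_const_right _ 5 Filter.tendsto_id).const_div_atTop 5
      rw [sub_zero] at h2
      refine h2.congr' ?_
      filter_upwards [Filter.eventually_gt_atTop (0 : ℝ)] with x hx
      field_simp
      ring
    have := (Real.continuous_sqrt.tendsto 1).comp h1
    rwa [Real.sqrt_one] at this
  have hg' : Filter.Tendsto (fun x : ℝ => Real.sqrt (x / (x - 1))) Filter.atTop (nhds 1) := by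
    have h1 : Filter.Tendsto (fun x : ℝ => x / (x - 1)) Filter.atTop (nhds 1) := by
      have h2 : Filter.Tendsto (fun x : ℝ => 1 + 1 / (x + (-1))) Filter.atTop (nhds (1 + 0)) := by
        apply Filter.Tendsto.add tendsto_const_nhds
        exact (Filter.tendsto_atTop_add_const_right _ (-1) Filter.tendsto_id).const_div_atTop 1
      rw [add_zero] at h2
      refine h2.congr' ?_
      filter_upwards [Filter.eventually_gt_atTop (1 : ℝ)] with x hx
      have : x - 1 ≠ 0 := by
        intro h0; linarith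
      have h3 : x + (-1) = x - 1 := by ring
      rw [h3]
      field_simp
      ring
    have := (Real.continuous_sqrt.tendsto 1).comp h1
    rwa [Real.sqrt_one] at this
  refine tendsto_of_tendsto_of_tendsto_of_le_of_le' (hg.comp hx) (hg'.comp hx) ?_ ?_
  · filter_upwards [Filter.eventually_ge_atTop 2] with n hn
    have h1 := hlow n
    have h0 : 0 ≤ (n : ℝ) * Real.log 2 := by positivity
    simp only [Function.comp]
    rw [Real.sqrt_div h0]
    calc Real.sqrt (n * Real.log 2) / Real.sqrt (n * Real.log 2 + 5)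
        = 1 / Real.sqrt (n * Real.log 2 + 5) * Real.sqrt (n * Real.log 2) := by ring
      _ ≤ _ := mul_le_mul_of_nonneg_right h1 (Real.sqrt_nonneg _)
  · filter_upwards [Filter.eventually_ge_atTop 2] with n hn
    have h1 := hup n hn
    have h0 : 0 ≤ (n : ℝ) * Real.log 2 := by positivity
    simp only [Function.comp]
    rw [Real.sqrt_div h0]
    calc guaranteedOverlap n * Real.sqrt (n * Real.log 2)
        ≤ 1 / Real.sqrt (n * Real.log 2 - 1) * Real.sqrt (n * Real.log 2) :=
          mul_le_mul_of_nonneg_right h1 (Real.sqrt_nonneg _)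
      _ = _ := by ring

end Pool.Agent.Results.MP_36f78e_lc.SubsetStates
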